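import Pool.Agent.MP_db5b97_nt.H14.G7a

/-! Active primes for a giant component. -/

namespace Pool.Agent.MP_db5b97_nt.H14

open MulAction Pool.Agent.MP_db5b97_nt.H31

section form

variable {G X : Type} [Group G] [Fintype G] [MulAction G X]

/-- the averaged form -/
def ee (G : Type) {X : Type} [Group G] [Fintype G] [MulAction G X] (v : X → ℚ) (x y : X) : ℚ :=
  ∑ g : G, v (g • x) * v (g • y)

theorem ee_symm (v : X → ℚ) (x y : X) : ee G v x y = ee G v y x := by
  unfold ee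
  exact Finset.sum_congr rfl fun g _ => mul_comm _ _

theorem ee_smul (v : X → ℚ) (h : G) (x y : X) : ee G v (h • x) (h • y) = ee G v x y := by
  unfold ee
  refine Fintype.sum_equiv (Equiv.mulRight h) _ _ fun g => ?_
  simp [mul_smul]

theorem ee_psd (v : X → ℚ) {ι : Type} (T : Finset ι) (a : ι → X) :
    0 ≤ ∑ i ∈ T, ∑ j ∈ T, ee G v (a i) (a j) := by
  have h : ∑ i ∈ T, ∑ j ∈ T, ee G v (a i) (a j) = ∑ g : G, (∑ i ∈ T, v (g • a i)) ^ 2 := by
    unfold ee
    simp only [sq, Finset.sum_mul_sum]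
    rw [Finset.sum_comm (s := Finset.univ)]
    refine Finset.sum_congr rfl fun i _ => ?_
    rw [Finset.sum_comm]
  rw [h]
  exact Finset.sum_nonneg fun g _ => sq_nonneg _

theorem ee_diag [Fintype X] (v : X → ℚ) :
    ∑ x : X, ee G v x x = Fintype.card G * ∑ x : X, v x ^ 2 := by
  unfold ee
  rw [Finset.sum_comm]
  have h : ∀ g : G, ∑ x : X, v (g • x) * v (g • x) = ∑ x : X, v x ^ 2 := by
    intro g
    refine Fintype.sum_equiv (MulAction.toPerm g) _ _ fun x => ?_
    simp [sq]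
  simp [h]

end form

section main

variable {G X Y W : Type} [Group G] [MulAction G X] [MulAction G Y] [MulAction G W]

theorem CB.mul {β : X →[G] Y} {b : Y} {g h : G} (hg : CB β b g) (hh : CB β b h) :
    CB β b (g * h) := fun x hx => by rw [mul_smul, hh x hx, hg x hx]

theorem CB.inv {β : X →[G] Y} {b : Y} {g : G} (hg : CB β b g) : CB β b g⁻¹ :=
  fun x hx => inv_fix g x (hg x hx)

theorem CB.fix {β : X →[G] Y} (hβ : Function.Surjective β) {b : Y} {g : G} (hg : CB β b g) :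
    g • b = b := by
  obtain ⟨x, rfl⟩ := hβ b
  rw [← map_smul, hg x rfl]

theorem neg_bound [Fintype G] [Finite Y] (β : X →[G] Y) (ω : Y →[G] W)
    (hβ : Function.Surjective β) (w : W) (hl : Lift β ω w) (v : X → ℚ) (δ : ℚ)
    (hδ : ∀ a, ee G v a a = δ) (b0 : Y) (hb0 : ω b0 = w) (x : X) (hx : ω (β x) = w)
    (hxb : β x ≠ b0) (g0 : G) (hg0 : CB β b0 g0) (hne : β (g0 • x) ≠ β x) :
    3 ≤ Nat.card {y // ω y = w} ∧
      0 ≤ δ + ((Nat.card {y // ω y = w} : ℚ) - 2) * ee G v x (g0 • x) := by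
  classical
  have : Fintype Y := Fintype.ofFinite _
  let O : X → Prop := fun a => ∃ g : G, CB β b0 g ∧ g • x = a
  have hO : ∀ a, O a → ω (β a) = w ∧ β a ≠ b0 := by
    rintro a ⟨g, hg, rfl⟩
    have e := hg.fix hβ
    refine ⟨?_, fun h => hxb ((blk_iff β e x).1 h)⟩
    rw [map_smul, map_smul, hx, ← hb0, ← map_smul, e]
  have claim : ∀ a a' a'', O a → O a' → O a'' → β a' ≠ β a → β a'' ≠ β a →
      ee G v a a' = ee G v a a'' := by
    intro a a' a'' ha ha' ha'' h1 h2
    obtain ⟨i1, i2⟩ := hO a ha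
    obtain ⟨j1, j2⟩ := hO a' ha'
    obtain ⟨k1, k2⟩ := hO a'' ha''
    obtain ⟨g1, hg1, e1⟩ := ha'
    obtain ⟨g2, hg2, e2⟩ := ha''
    have hg : CB β b0 (g2 * g1⁻¹) := hg2.mul hg1.inv
    have eg : (g2 * g1⁻¹) • a' = a'' := by rw [mul_smul, ← e1, inv_smul_smul, e2]
    obtain ⟨d, d0, d1, d2⟩ := hl b0 (β a) (β a') (β a'') hb0 i1 j1 k1 j2 h1 k2 h2
    obtain ⟨h, h0, -, h3⟩ := hl (β a') (β a') b0 (β a) j1 j1 hb0 i1 j2.symm j2.symm h1.symm h1.symm
    have hk : CB β b0 (d⁻¹ * (g2 * g1⁻¹)) := d0.inv.mul hg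
    have ek : β ((d⁻¹ * (g2 * g1⁻¹)) • a') = β a' := by
      rw [mul_smul, eg, map_smul, ← d2, inv_smul_smul]
    have f1 : (d * (h * (d⁻¹ * (g2 * g1⁻¹)) * h⁻¹)) • a = a := by
      rw [mul_smul, mul_smul, mul_smul, hk (h⁻¹ • a) (by rw [map_smul, ← h3, inv_smul_smul]),
        smul_inv_smul, d1 a rfl]
    have f2 : (d * (h * (d⁻¹ * (g2 * g1⁻¹)) * h⁻¹)) • a' = a'' := by
      rw [mul_smul, mul_smul, mul_smul, h0.inv a' rfl, h0 _ ek, mul_smul, smul_inv_smul, eg]
    rw [← ee_smul v (d * (h * (d⁻¹ * (g2 * g1⁻¹)) * h⁻¹)) a a', f1, f2]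
  have ox : O x := ⟨1, fun z _ => one_smul _ _, one_smul _ _⟩
  have ox' : O (g0 • x) := ⟨g0, hg0, rfl⟩
  have const : ∀ a a', O a → O a' → β a' ≠ β a → ee G v a a' = ee G v x (g0 • x) := by
    intro a a' ha ha' h
    by_cases e : β a = β x
    · have e' : β x ≠ β a' := fun e' => h (e'.symm.trans e.symm)
      rw [ee_symm, claim a' a x ha' ha ox h.symm e', ee_symm,
        claim x a' (g0 • x) ox ha' ox' e'.symm hne]
    · rw [claim a a' x ha ha' ox h (Ne.symm e), ee_symm, claim x a (g0 • x) ox ha ox' e hne]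
  let T : Finset Y := (Finset.univ.filter fun y => ω y = w).erase b0
  have hT : ∀ b, b ∈ T ↔ b ≠ b0 ∧ ω b = w := by
    intro b
    simp [T]
  have hc : T.card + 1 = Nat.card {y // ω y = w} := by
    rw [Nat.card_eq_fintype_card, Fintype.card_subtype]
    exact Finset.card_erase_add_one (by simp [hb0])
  have hex : ∀ b, ∃ a, b ∈ T → O a ∧ β a = b := by
    intro b
    by_cases hb : b ∈ T
    · obtain ⟨hb1, hb2⟩ := (hT b).1 hb
      obtain ⟨g, g1, -, g2⟩ := hl b0 b0 (β x) b hb0 hb0 hx hb2 hxb hxb hb1 hb1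
      exact ⟨g • x, fun _ => ⟨⟨g, g1, rfl⟩, by rw [map_smul, g2]⟩⟩
    · exact ⟨x, fun h => absurd h hb⟩
  choose a ha using hex
  have h2 : 1 < T.card :=
    Finset.one_lt_card.2 ⟨β (g0 • x), (hT _).2 (hO _ ox').symm, β x, (hT _).2 ⟨hxb, hx⟩, hne⟩
  have hp := ee_psd (G := G) v T a
  have hrow : ∀ b ∈ T, ∑ b' ∈ T, ee G v (a b) (a b') =
      δ + ((T.card : ℚ) - 1) * ee G v x (g0 • x) := by
    intro b hb
    rw [← Finset.add_sum_erase T _ hb, hδ, Finset.sum_congr rfl (g := fun _ => ee G v x (g0 • x))]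
    · rw [Finset.sum_const, Finset.card_erase_of_mem hb, nsmul_eq_mul,
        Nat.cast_sub (by omega), Nat.cast_one]
    · intro b' hb'
      obtain ⟨hb1, hb2⟩ := Finset.mem_erase.1 hb'
      refine const _ _ (ha b hb).1 (ha b' hb2).1 ?_
      rw [(ha b hb).2, (ha b' hb2).2]
      exact hb1
  rw [Finset.sum_congr rfl hrow, Finset.sum_const, nsmul_eq_mul] at hp
  have hpos : (0 : ℚ) < T.card := by exact_mod_cast (by omega : 0 < T.card)
  refine ⟨by omega, ?_⟩
  have h3 := nonneg_of_mul_nonneg_right hp hpos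
  rw [← hc]
  push_cast
  linarith

end main

theorem rowG7 : RowG7 := by
  intro G X Y W _ _ _ _ _ _ _ _ β ω s m t w σ p htr hL hg hp h3 hsp htp hσ hQ
  classical
  by_contra hcon
  obtain ⟨h0, h1⟩ := not_or.1 hcon
  obtain ⟨v, hv⟩ := hQ
  have : Fintype Y := Fintype.ofFinite _
  have : Finite W := Finite.of_surjective ω hL.so
  have : Fintype W := Fintype.ofFinite _
  have hσY : ∀ y : Y, σ ^ p • y = y := by
    intro y
    obtain ⟨x, rfl⟩ := hL.sb y
    rw [← map_smul, hσ]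
  have hσW : ∀ u : W, σ • u = u := by
    intro u
    refine fix_small σ (fun _ : W => True) (fun _ => Iff.rfl) hp ?_ u trivial ?_
    · rw [Nat.card_congr (Equiv.subtypeUnivEquiv fun _ => trivial), hL.ct]
      exact htp
    · obtain ⟨y, rfl⟩ := hL.so u
      rw [← map_smul, hσY]
  have hCB : ∀ b : Y, σ • b = b → CB β b σ := by
    intro b hb x hx
    exact fix_small σ (fun x => β x = b) (blk_iff β hb) hp (by rw [hL.cs]; exact hsp) x hx (hσ x)
  have htwo : ∀ u : W, ∃ a b : Y, a ≠ b ∧ ω a = u ∧ ω b = u ∧ σ • a = a ∧ σ • b = b := by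
    intro u
    exact two_fixed σ (fun y => ω y = u) (blk_iff ω (hσW u)) hp (fun z _ => hσY z)
      (by rw [hL.cm]; exact h0) (by rw [hL.cm]; exact h1)
  obtain ⟨y0, hy0⟩ := hL.so w
  obtain ⟨x0, hx0⟩ := hL.sb y0
  have hδ : ∀ a, ee G v a a = ee G v x0 x0 := by
    intro a
    obtain ⟨k, rfl⟩ := htr.exists_smul_eq x0 a
    exact ee_smul v k x0 x0
  set δ := ee G v x0 x0 with hδd
  have hδ0 : 0 ≤ δ := Finset.sum_nonneg fun g _ => mul_self_nonneg _
  have hN : (Fintype.card X : ℚ) * δ = Fintype.card G * ∑ x : X, v x ^ 2 := by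
    rw [← ee_diag, Finset.sum_congr rfl fun a _ => hδ a]
    simp
  have hLHS : ∑ g : G, ∑ i ∈ Finset.range p, ∑ x : X, v (g • x) * v (g • σ ^ i • x) =
      ∑ x : X, ∑ i ∈ Finset.range p, ee G v x (σ ^ i • x) := by
    unfold ee
    rw [Finset.sum_comm]
    rw [Finset.sum_comm (s := Finset.univ) (t := Finset.range p)]
    refine Finset.sum_congr rfl fun i _ => ?_
    rw [Finset.sum_comm]
  rw [hLHS, ← hN] at hv
  have hfix : ∀ x : X, σ • x = x → ∑ i ∈ Finset.range p, ee G v x (σ ^ i • x) = p * δ := by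
    intro x hx
    rw [Finset.sum_congr rfl (g := fun _ => δ) fun i _ => by rw [pow_fix σ x hx, hδ]]
    simp
  have hmov : ∀ x : X, σ • x ≠ x → ∀ i, 0 < i → i < p →
      3 ≤ m ∧ 0 ≤ δ + ((m : ℚ) - 2) * ee G v x (σ ^ i • x) := by
    intro x hx i hi hip
    have hbx : σ • β x ≠ β x := fun e => hx (hCB _ e x rfl)
    obtain ⟨a, b, hab, ha, hb, ha', hb'⟩ := htwo (ω (β x))
    obtain ⟨k, hk⟩ := htr.exists_smul_eq x0 x
    have hw : ω (β x) = k • w := by rw [← hk, map_smul, map_smul, hx0, hy0]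
    have e : ∀ y : Y, ω y = ω (β x) → ω (k⁻¹ • y) = w := by
      intro y hy
      rw [map_smul, hy, hw, inv_smul_smul]
    have cj : ∀ y : Y, (k⁻¹ * σ * k) • k⁻¹ • y = k⁻¹ • σ • y := by
      intro y
      rw [mul_smul, mul_smul, smul_inv_smul]
    have hl : Lift β ω w := by
      refine lift_of_gi β ω w hL.cs hg hp h3 hsp (k⁻¹ * σ * k) ?_ ?_ (k⁻¹ • a) (k⁻¹ • b)
        (k⁻¹ • β x) (e _ ha) (e _ hb) (e _ rfl) (fun h => hab (MulAction.injective k⁻¹ h))
        (by rw [cj, ha']) (by rw [cj, hb']) ?_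
      · rw [mul_smul, mul_smul, hσW, inv_smul_smul]
      · intro y
        have : (k⁻¹ * σ * k) ^ p = k⁻¹ * σ ^ p * k := by
          have := conj_pow (a := k⁻¹) (b := σ) (i := p)
          simpa using this
        rw [this, mul_smul, mul_smul, hσY, inv_smul_smul]
      · rw [cj]
        exact fun h => hbx (MulAction.injective k⁻¹ h)
    have hl' : Lift β ω (ω (β x)) := by
      rw [hw]
      exact hl.smul k
    have hcb : CB β a (σ ^ i) := fun z hz => pow_fix σ z (hCB a ha' z hz) i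
    have hne : β (σ ^ i • x) ≠ β x := by
      rw [map_smul]
      intro h
      exact hbx (fix_of_coprime σ (β x)
        ((Nat.coprime_of_lt_prime (by omega) hip hp)) (hσY _) h)
    have := neg_bound β ω hL.sb _ hl' v δ hδ a ha x rfl (fun h => hbx (by rw [h, ha'])) (σ ^ i)
      hcb hne
    rwa [hL.cm] at this
  have hp1 : (1 : ℚ) ≤ p := by exact_mod_cast hp.one_le
  by_cases hm : 3 ≤ m
  swap
  · have hall : ∀ x : X, σ • x = x := by
      intro x
      by_contra hx
      exact hm (hmov x hx 1 one_pos hp.one_lt).1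
    rw [Finset.sum_congr rfl fun x _ => hfix x (hall x)] at hv
    simp only [Finset.sum_const, Finset.card_univ, nsmul_eq_mul] at hv
    have hc0 : (0 : ℚ) ≤ Fintype.card X := Nat.cast_nonneg _
    nlinarith [mul_nonneg (mul_nonneg hc0 hδ0) (sub_nonneg.2 hp1)]
  let F : Finset X := Finset.univ.filter fun x => σ • x = x
  let FY : Finset Y := Finset.univ.filter fun y => σ • y = y
  have hFY : 2 * t ≤ FY.card := by
    rw [Finset.card_eq_sum_card_fiberwise (f := ω) (t := Finset.univ)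
      (fun _ _ => Finset.mem_coe.2 (Finset.mem_univ _))]
    have : ∑ _u : W, 2 = 2 * t := by
      rw [Finset.sum_const, Finset.card_univ, ← Nat.card_eq_fintype_card, hL.ct, smul_eq_mul,
        mul_comm]
    rw [← this]
    refine Finset.sum_le_sum fun u _ => ?_
    obtain ⟨a, b, hab, ha, hb, ha', hb'⟩ := htwo u
    exact Finset.one_lt_card.2 ⟨a, by simp [FY, ha, ha'], b, by simp [FY, hb, hb'], hab⟩
  have hF : FY.card * s ≤ F.card := by
    have e1 : (Finset.univ.filter fun x => β x ∈ FY).card = FY.card * s := by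
      rw [Finset.card_eq_sum_card_fiberwise (f := β) (t := FY)
        (fun x hx => Finset.mem_coe.2 (Finset.mem_filter.1 (Finset.mem_coe.1 hx)).2)]
      rw [Finset.sum_congr rfl (g := fun _ => s)]
      · simp
      · intro b hb
        rw [← hL.cs b, Nat.card_eq_fintype_card, Fintype.card_subtype]
        congr 1
        ext x
        simp only [Finset.mem_filter, Finset.mem_univ, true_and]
        exact ⟨fun h => h.2, fun h => ⟨h ▸ hb, h⟩⟩
    rw [← e1]
    refine Finset.card_le_card fun x hx => ?_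
    simp only [F, FY, Finset.mem_filter, Finset.mem_univ, true_and] at hx ⊢
    exact hCB _ hx x rfl
  have hNf : Fintype.card X ≤ F.card * (m - 1) := by
    rw [← Nat.card_eq_fintype_card, hL.cx]
    obtain ⟨r, rfl⟩ : ∃ r, m = r + 3 := ⟨m - 3, by omega⟩
    have e1 : 2 * t * s ≤ F.card := le_trans (Nat.mul_le_mul_right s hFY) hF
    calc t * (r + 3) * s ≤ 2 * t * s * (r + 2) := by nlinarith [Nat.zero_le (t * s * r), Nat.zero_le (t * s)]
      _ ≤ F.card * (r + 3 - 1) := Nat.mul_le_mul e1 (by omega)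
  have hNf' : (Fintype.card X : ℚ) ≤ F.card * ((m : ℚ) - 1) := by
    have : ((Fintype.card X : ℕ) : ℚ) ≤ ((F.card * (m - 1) : ℕ) : ℚ) := by exact_mod_cast hNf
    rwa [Nat.cast_mul, Nat.cast_sub (by omega), Nat.cast_one] at this
  have hm' : (3 : ℚ) ≤ m := by exact_mod_cast hm
  have hpt : ∀ x : X, ((m : ℚ) - 2) * δ - ((p : ℚ) - 1) * δ +
      (if σ • x = x then ((m : ℚ) - 1) * (((p : ℚ) - 1) * δ) else 0) ≤
      ((m : ℚ) - 2) * ∑ i ∈ Finset.range p, ee G v x (σ ^ i • x) := by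
    intro x
    by_cases hx : σ • x = x
    · rw [if_pos hx, hfix x hx]
      linarith
    · rw [if_neg hx]
      obtain ⟨q, rfl⟩ : ∃ q, p = q + 1 := ⟨p - 1, by omega⟩
      rw [Finset.sum_range_succ', pow_zero, one_smul, hδ, mul_add, Finset.mul_sum]
      have : ∑ _i ∈ Finset.range q, (-δ) ≤
          ∑ i ∈ Finset.range q, ((m : ℚ) - 2) * ee G v x (σ ^ (i + 1) • x) := by
        refine Finset.sum_le_sum fun i hi => ?_
        have := (hmov x hx (i + 1) (by omega) (by have := Finset.mem_range.1 hi; omega)).2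
        linarith
      simp only [Finset.sum_const, Finset.card_range, nsmul_eq_mul] at this
      push_cast
      linarith
  have hsum := Finset.sum_le_sum fun x (_ : x ∈ (Finset.univ : Finset X)) => hpt x
  rw [← Finset.mul_sum, Finset.sum_add_distrib, ← Finset.sum_filter] at hsum
  simp only [Finset.sum_const, Finset.card_univ, nsmul_eq_mul] at hsum
  have hq : 0 ≤ ((p : ℚ) - 1) * δ := mul_nonneg (by linarith) hδ0
  have h5 := mul_lt_mul_of_pos_left hv (by linarith : (0 : ℚ) < (m : ℚ) - 2)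
  have h6 := mul_le_mul_of_nonneg_right hNf' hq
  change (Fintype.card X : ℚ) * _ + (F.card : ℚ) * _ ≤ _ at hsum
  nlinarith

end Pool.Agent.MP_db5b97_nt.H14
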