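import Pool.Agent.MP_db5b97_nt.H31.SpecG

/-! Lifting lemmas for a giant component. -/

namespace Pool.Agent.MP_db5b97_nt.H14

open MulAction Pool.Agent.MP_db5b97_nt.H31

section basic

variable {G Z : Type} [Group G] [MulAction G Z]

theorem sub_pow (g : G) (P : Z → Prop) (h : ∀ z, P (g • z) ↔ P z) (n : ℕ) (u : {z // P z}) :
    ((((MulAction.toPerm g).subtypePerm h : Equiv.Perm {z // P z}) ^ n) u : Z) =
      g ^ n • (u : Z) := by
  induction n generalizing u with
  | zero => simp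
  | succ n ih =>
    rw [pow_succ', Equiv.Perm.mul_apply, pow_succ', mul_smul, ← ih]
    rfl

theorem pow_fact (g : G) (P : Z → Prop) [Finite {z // P z}] (h : ∀ z, P (g • z) ↔ P z) (z : Z)
    (hz : P z) : g ^ (Nat.card {z // P z}).factorial • z = z := by
  have h1 : ((MulAction.toPerm g).subtypePerm h : Equiv.Perm {z // P z}) ^
      (Nat.card {z // P z}).factorial = 1 := by
    rw [← Nat.card_perm]
    exact pow_card_eq_one'
  have h2 := sub_pow g P h (Nat.card {z // P z}).factorial ⟨z, hz⟩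
  rw [h1] at h2
  exact h2.symm

theorem fix_of_coprime (g : G) (z : Z) {a b : ℕ} (hab : a.Coprime b) (ha : g ^ a • z = z)
    (hb : g ^ b • z = z) : g • z = z := by
  rw [pow_smul_eq_iff_period_dvd] at ha hb
  have h := Nat.dvd_gcd ha hb
  rw [hab] at h
  exact period_eq_one_iff.1 (Nat.dvd_one.1 h)

theorem fix_small (g : G) (P : Z → Prop) [Finite {z // P z}] (h : ∀ z, P (g • z) ↔ P z) {p : ℕ}
    (hp : p.Prime) (hs : Nat.card {z // P z} < p) (z : Z) (hz : P z) (hb : g ^ p • z = z) :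
    g • z = z :=
  fix_of_coprime g z (hp.coprime_factorial_of_lt hs) hb (pow_fact g P h z hz)

theorem pow_fix (g : G) (z : Z) (h : g • z = z) (n : ℕ) : g ^ n • z = z := by
  induction n with
  | zero => simp
  | succ n ih => rw [pow_succ, mul_smul, h, ih]

theorem inv_fix (g : G) (z : Z) (h : g • z = z) : g⁻¹ • z = z := by
  rw [inv_smul_eq_iff, h]

theorem two_fixed (g : G) (P : Z → Prop) [Finite {z // P z}] (h : ∀ z, P (g • z) ↔ P z) {p : ℕ}
    (hp : p.Prime) (hb : ∀ z, P z → g ^ p • z = z) (h0 : ¬ p ∣ Nat.card {z // P z})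
    (h1 : ¬ p ∣ Nat.card {z // P z} - 1) :
    ∃ a b : Z, a ≠ b ∧ P a ∧ P b ∧ g • a = a ∧ g • b = b := by
  classical
  have := Fact.mk hp
  have : Fintype {z // P z} := Fintype.ofFinite _
  let π : Equiv.Perm {z // P z} := (MulAction.toPerm g).subtypePerm h
  let f : Function.End {z // P z} := fun u => π u
  have hf : ∀ n : ℕ, ∀ u, (f ^ n) u = (π ^ n) u := by
    intro n
    induction n with
    | zero => intro u; rfl
    | succ n ih =>
      intro u
      rw [pow_succ, pow_succ, Equiv.Perm.mul_apply, ← ih]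
      rfl
  have hf1 : f ^ p ^ 1 = 1 := by
    funext u
    rw [pow_one, hf]
    apply Subtype.ext
    exact (sub_pow g P h p u).trans (hb _ u.2)
  have hm := Equiv.Perm.card_fixedPoints_modEq (f := f) hf1
  rw [← Nat.card_eq_fintype_card] at hm
  have h2 : 1 < Fintype.card (Function.fixedPoints f) := by
    by_contra hc
    have hc' : Fintype.card (Function.fixedPoints f) = 0 ∨
        Fintype.card (Function.fixedPoints f) = 1 := by omega
    rcases hc' with e | e
    · rw [e] at hm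
      exact h0 ((Nat.modEq_zero_iff_dvd).1 hm)
    · rw [e] at hm
      have hpos : 1 ≤ Nat.card {z // P z} := by
        rcases Nat.eq_zero_or_pos (Nat.card {z // P z}) with e0 | e0
        · exact absurd (e0 ▸ dvd_zero p) h0
        · exact e0
      exact h1 ((Nat.modEq_iff_dvd' hpos).1 hm.symm)
  obtain ⟨a, b, hab⟩ := Fintype.exists_pair_of_one_lt_card h2
  refine ⟨a.1.1, b.1.1, fun e => hab (Subtype.ext (Subtype.ext e)), a.1.2, b.1.2, ?_, ?_⟩
  · exact congrArg Subtype.val a.2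
  · exact congrArg Subtype.val b.2

end basic

/-- a permutation of order dividing `p` with prescribed values -/
theorem exists_cyc {Z : Type} [Fintype Z] [DecidableEq Z] (c : Equiv.Perm Z) {p : ℕ}
    (hp : p.Prime) (h3 : 3 ≤ p) (hc : c ^ p = 1) (a b y : Z) (hab : a ≠ b) (ha : c a = a)
    (hb : c b = b) (hy : c y ≠ y) (b0 b1 u v : Z) (hu0 : u ≠ b0) (hu1 : u ≠ b1) (hv0 : v ≠ b0)
    (hv1 : v ≠ b1) :
    ∃ d : Equiv.Perm Z, d ^ p = 1 ∧ Equiv.Perm.sign d = 1 ∧ d b0 = b0 ∧ d b1 = b1 ∧ d u = v := by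
  by_cases huv : u = v
  · exact ⟨1, one_pow _, by simp, rfl, rfl, huv⟩
  have hya : y ≠ a := fun e => hy (by rw [e, ha])
  have hyb : y ≠ b := fun e => hy (by rw [e, hb])
  have hca : c y ≠ a := fun e => hya (c.injective (e.trans ha.symm))
  have hcb : c y ≠ b := fun e => hyb (c.injective (e.trans hb.symm))
  have hs : Equiv.Perm.sign c = 1 := by
    have h1 : Equiv.Perm.sign c ^ p = 1 := by rw [← map_pow, hc, map_one]
    have ho : Odd p := hp.odd_of_ne_two (by omega)
    rcases Int.units_eq_one_or (Equiv.Perm.sign c) with e | e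
    · exact e
    · rw [e, ho.neg_one_pow] at h1
      exact absurd h1 (by decide)
  have key : ∃ π : Equiv.Perm Z, π a = b0 ∧ (π b = b1 ∨ b0 = b1) ∧ π y = u ∧ π (c y) = v := by
    by_cases h01 : b0 = b1
    · obtain ⟨π, hπ⟩ := Equiv.Perm.exists_extending_pair (![a, y, c y] : Fin 3 → Z) ![b0, u, v]
        (by
          intro i j
          fin_cases i <;> fin_cases j <;> simp [hya, hca, hy, hya.symm, hca.symm, hy.symm])
        (by
          intro i j
          fin_cases i <;> fin_cases j <;>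
            simp [hu0, hv0, huv, hu0.symm, hv0.symm, Ne.symm huv])
      exact ⟨π, hπ 0, Or.inr h01, hπ 1, hπ 2⟩
    · obtain ⟨π, hπ⟩ := Equiv.Perm.exists_extending_pair (![a, b, y, c y] : Fin 4 → Z)
        ![b0, b1, u, v]
        (by
          intro i j
          fin_cases i <;> fin_cases j <;>
            simp [hya, hca, hy, hya.symm, hca.symm, hy.symm, hab, hab.symm, hyb, hyb.symm, hcb,
              hcb.symm])
        (by
          intro i j
          fin_cases i <;> fin_cases j <;>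
            simp [hu0, hv0, huv, hu0.symm, hv0.symm, Ne.symm huv, h01, Ne.symm h01, hu1, hv1,
              hu1.symm, hv1.symm])
      exact ⟨π, hπ 0, Or.inl (hπ 1), hπ 2, hπ 3⟩
  obtain ⟨π, h1, h2, h4, h5⟩ := key
  have e0 : (π * c * π⁻¹) b0 = b0 := by
    rw [← h1]
    simp [ha]
  refine ⟨π * c * π⁻¹, by rw [conj_pow, hc]; simp, by simp [hs], e0, ?_, ?_⟩
  · rcases h2 with h2 | h2
    · rw [← h2]
      simp [hb]
    · rw [← h2]
      exact e0
  · rw [← h4, ← h5]
    simp

section lift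

variable {G X Y W : Type} [Group G] [MulAction G X] [MulAction G Y] [MulAction G W]

/-- `g` fixes the block `b` pointwise -/
def CB (β : X →[G] Y) (b : Y) (g : G) : Prop := ∀ x, β x = b → g • x = x

/-- the lifting property over `w` -/
def Lift (β : X →[G] Y) (ω : Y →[G] W) (w : W) : Prop :=
  ∀ b0 b1 u v : Y, ω b0 = w → ω b1 = w → ω u = w → ω v = w → u ≠ b0 → u ≠ b1 → v ≠ b0 → v ≠ b1 →
    ∃ g : G, CB β b0 g ∧ CB β b1 g ∧ g • u = v

theorem blk_iff (β : X →[G] Y) {b : Y} {g : G} (h : g • b = b) (x : X) :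
    β (g • x) = b ↔ β x = b := by
  rw [map_smul]
  constructor
  · intro e
    exact MulAction.injective g (e.trans h.symm)
  · intro e
    rw [e, h]

theorem Lift.smul {β : X →[G] Y} {ω : Y →[G] W} {w : W} (h : Lift β ω w) (k : G) :
    Lift β ω (k • w) := by
  intro b0 b1 u v h0 h1 hu hv hu0 hu1 hv0 hv1
  have e : ∀ y : Y, ω y = k • w → ω (k⁻¹ • y) = w := by
    intro y hy
    rw [map_smul, hy, inv_smul_smul]
  have ne : ∀ y z : Y, y ≠ z → k⁻¹ • y ≠ k⁻¹ • z := fun y z hyz e' =>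
    hyz (MulAction.injective k⁻¹ e')
  obtain ⟨g, g0, g1, g2⟩ := h _ _ _ _ (e _ h0) (e _ h1) (e _ hu) (e _ hv) (ne _ _ hu0) (ne _ _ hu1)
    (ne _ _ hv0) (ne _ _ hv1)
  have cb : ∀ b : Y, CB β (k⁻¹ • b) g → CB β b (k * g * k⁻¹) := by
    intro b hb x hx
    rw [mul_smul, mul_smul, hb (k⁻¹ • x) (by rw [map_smul, hx]), smul_inv_smul]
  exact ⟨k * g * k⁻¹, cb _ g0, cb _ g1, by rw [mul_smul, mul_smul, g2, smul_inv_smul]⟩

theorem lift_of_gi [Finite X] [Finite Y] [DecidableEq Y] (β : X →[G] Y) (ω : Y →[G] W) (w : W)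
    {s p : ℕ} (hs : ∀ b, Nat.card {x // β x = b} = s) (hg : Gi (stabilizer G w) (fib ω w))
    (hp : p.Prime) (h3 : 3 ≤ p) (hsp : s < p) (τ : G) (hτ : τ • w = w)
    (hτp : ∀ y : Y, τ ^ p • y = y) (a b y : Y) (ha : ω a = w) (hb : ω b = w) (hy : ω y = w)
    (hab : a ≠ b) (ha' : τ • a = a) (hb' : τ • b = b) (hy' : τ • y ≠ y) : Lift β ω w := by
  intro b0 b1 u v h0 h1 hu hv hu0 hu1 hv0 hv1
  let τ' : stabilizer G w := ⟨τ, hτ⟩
  let c : Equiv.Perm (fib ω w) := MulAction.toPermHom (stabilizer G w) (fib ω w) τ'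
  have hc : c ^ p = 1 := by
    rw [← map_pow]
    ext z
    exact hτp z
  obtain ⟨d, d1, d2, d3, d4, d5⟩ := exists_cyc c hp h3 hc ⟨a, ha⟩ ⟨b, hb⟩ ⟨y, hy⟩
    (fun e => hab (congrArg Subtype.val e)) (Subtype.ext ha') (Subtype.ext hb')
    (fun e => hy' (congrArg Subtype.val e)) ⟨b0, h0⟩ ⟨b1, h1⟩ ⟨u, hu⟩ ⟨v, hv⟩
    (fun e => hu0 (congrArg Subtype.val e)) (fun e => hu1 (congrArg Subtype.val e))
    (fun e => hv0 (congrArg Subtype.val e)) (fun e => hv1 (congrArg Subtype.val e))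
  obtain ⟨g, hgd⟩ := hg d d2
  have hge : MulAction.toPermHom (stabilizer G w) (fib ω w) g = d := Equiv.ext hgd
  have hcop : (s.factorial).Coprime p := (hp.coprime_factorial_of_lt hsp).symm
  have hmod : s.factorial ^ (p - 1) ≡ 1 [MOD p] := by
    have := Nat.ModEq.pow_totient hcop
    rwa [Nat.totient_prime hp] at this
  have hd : d ^ (s.factorial ^ (p - 1)) = d := by
    have := pow_eq_pow_of_modEq hmod d1
    rwa [pow_one] at this
  have cb : ∀ (z : Y) (hz : ω z = w), d ⟨z, hz⟩ = ⟨z, hz⟩ →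
      CB β z ((g : G) ^ (s.factorial ^ (p - 1))) := by
    intro z hz hdz x hx
    have e1 : (g : G) • z = z := congrArg Subtype.val ((hgd ⟨z, hz⟩).trans hdz)
    have e2 := pow_fact (g : G) (fun x => β x = z) (blk_iff β e1) x hx
    rw [hs] at e2
    obtain ⟨q, hq⟩ : ∃ q, p - 1 = q + 1 := ⟨p - 2, by omega⟩
    rw [hq, pow_succ', pow_mul]
    exact pow_fix _ _ e2 _
  refine ⟨(g : G) ^ (s.factorial ^ (p - 1)), cb _ h0 d3, cb _ h1 d4, ?_⟩
  have e3 : MulAction.toPermHom (stabilizer G w) (fib ω w) (g ^ (s.factorial ^ (p - 1))) = d := by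
    rw [map_pow, hge, hd]
  have e4 := congrArg (fun π : Equiv.Perm (fib ω w) => ((π ⟨u, hu⟩ : fib ω w) : Y)) e3
  simp only [d5] at e4
  exact e4

end lift

end Pool.Agent.MP_db5b97_nt.H14
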